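import Pool.Agent.W2helper64.RI.Bohr

/-!
# Bohr sets of iterated equations, uniformly in the triple

Let `a, b, c` be as in the question and `f x = (b x + c) / a`, so that `f q = p` says `a p - b q = c`. If
`f^s(m) = q` and `f^t(m) = p` with `s < t`, then `p, q` solve the iterated equation
`a^j p - b^j q = c (a^(j-1) + a^(j-2) b + ... + b^(j-1))` with `j = t - s`, which again satisfies the hypotheses
of the question.

For all `k`, `s` and `ε > 0` there are `d`, `C`, `M`, `n₁` and `ρ, δ > 0`, which do NOT depend on the triple,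
such that for every triple `(a, b, c)` of the question, every multiple `N` of `M` and every `H ≥ n₁` there are
at most `d` real numbers `θ` and a radius `ρ ≤ r ≤ 1` such that the Bohr set

  `B = { t : |t| ≤ H, |exp (2 π i θ t) - 1| ≤ r for all θ }`

has at least `δ H` elements, and for all but at most `ε |B|^k` of the vectors `y ∈ B^k` the following holds
for every nonsingular integer matrix `T` with entries at most `s` in absolute value: with
`(h_1, ..., h_k) = N T y`, `h_0 = 0` and the times `t_i = h_i - min h`, all patterns of primes and non-primes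
among `f^{t_0}(m), ..., f^{t_k}(m)` occur for at least `x / (log x)^C` of the `m ≤ x`, for arbitrarily large
`x`. For `k = 1` this says in particular: almost all `t ∈ B` are such that the iterated equations with the
numbers `N |t|, 2 N |t|, ..., s N |t|` have infinitely many solutions in primes.

Proof: almost cliques of linear forms (`Pool.Agent.N646.AC.covF`) for the forms `a^(W - i) b^i n + β_i` with
`a β_{i+1} = b β_i + c` (`Pool.Agent.W25.IT.Rat`), and the theorem on returns in Bohr sets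
(`Pool.Agent.N646.AC.returnsZ`) of helper646, there applied to translations.
-/

set_option autoImplicit false

namespace Pool.Agent.Results.MP_bf63dc_nt.BohrSetsOfIterates

open Finset Filter

/-- the hypotheses of the question -/
def Adm (a b : ℕ) (c : ℤ) : Prop :=
  1 ≤ a ∧ 1 ≤ b ∧ c ≠ 0 ∧ IsCoprime (a : ℤ) b ∧ IsCoprime (a : ℤ) c ∧ IsCoprime (b : ℤ) c ∧
    ¬ (Odd a ∧ Odd b ∧ Odd c)

/-- the map with `f q = p` if and only if `a p - b q = c` -/
def f (a b : ℕ) (c : ℤ) (x : ℚ) : ℚ := (b * x + c) / a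

/-- exactly those of the iterates `f^{t_i}(m)`, `i = 0, ..., k`, with `i ∈ J` are primes -/
def Pattern (a b : ℕ) (c : ℤ) {k : ℕ} (t : Fin (k + 1) → ℕ) (J : Finset (Fin (k + 1))) (m : ℕ) : Prop :=
  ∀ i, (∃ p : ℕ, p.Prime ∧ (f a b c)^[t i] m = p) ↔ i ∈ J

/-- the numbers of iterations `t_i = h_i - min h`, where `h_0 = 0` -/
def times {k : ℕ} (h : Fin k → ℤ) (i : Fin (k + 1)) : ℕ :=
  ((Fin.cons 0 h : Fin (k + 1) → ℤ) i -
    univ.inf' ⟨0, mem_univ 0⟩ (Fin.cons 0 h : Fin (k + 1) → ℤ)).toNat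

/-- For arbitrarily large `x`, every pattern `J` at the times `t_i = h_i - min h` occurs for at least
`x / (log x)^C` of the `1 ≤ m ≤ x`. -/
def Good (a b : ℕ) (c : ℤ) (C : ℕ) {k : ℕ} (h : Fin k → ℤ) : Prop :=
  ∃ᶠ x : ℕ in atTop, ∀ J : Finset (Fin (k + 1)), (x : ℝ) / (Real.log x) ^ C ≤
    ({m : ℕ | 1 ≤ m ∧ m ≤ x ∧ Pattern a b c (times h) J m}.ncard : ℝ)

theorem iter_f {a b : ℕ} (ha : 1 ≤ a) (c : ℤ) (t : ℕ) (x : ℚ) : (f a b c)^[t] x =
    ((b : ℚ) ^ t * x + c * ∑ i ∈ range t, (a : ℚ) ^ i * (b : ℚ) ^ (t - 1 - i)) / (a : ℚ) ^ t := by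
  have ha0 : (a : ℚ) ≠ 0 := by positivity
  induction t with
  | zero => simp
  | succ t ih =>
    rw [Function.iterate_succ_apply', ih]
    unfold f
    have h1 : ∑ i ∈ range (t + 1), (a : ℚ) ^ i * (b : ℚ) ^ (t + 1 - 1 - i) =
        b * (∑ i ∈ range t, (a : ℚ) ^ i * (b : ℚ) ^ (t - 1 - i)) + (a : ℚ) ^ t := by
      rw [sum_range_succ, mul_sum]
      congr 1
      · refine sum_congr rfl fun i hi => ?_
        have h2 := mem_range.1 hi
        have h3 : t + 1 - 1 - i = (t - 1 - i) + 1 := by omega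
        rw [h3, pow_succ]
        ring
      · have h3 : t + 1 - 1 - t = 0 := by omega
        rw [h3, pow_zero, mul_one]
    rw [h1, pow_succ (a : ℚ) t, pow_succ (b : ℚ) t]
    field_simp
    ring

theorem prime_iff {a b : ℕ} (ha : 1 ≤ a) (c : ℤ) (t m : ℕ) :
    (∃ p : ℕ, p.Prime ∧ (f a b c)^[t] m = p) ↔ Pool.Agent.W2helper64.RI.Prm a b c t m := by
  have ha0 : (a : ℚ) ^ t ≠ 0 := by positivity
  unfold Pool.Agent.W2helper64.RI.Prm
  constructor
  · rintro ⟨p, hp, h⟩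
    refine ⟨p, hp, ?_⟩
    rw [iter_f ha, div_eq_iff ha0] at h
    have h2 : ((a : ℚ) ^ t * p - (b : ℚ) ^ t * m) =
        c * ∑ i ∈ range t, (a : ℚ) ^ i * (b : ℚ) ^ (t - 1 - i) := by linarith
    exact_mod_cast h2
  · rintro ⟨p, hp, h⟩
    refine ⟨p, hp, ?_⟩
    rw [iter_f ha, div_eq_iff ha0]
    have h2 : ((a : ℚ) ^ t * p - (b : ℚ) ^ t * m) =
        c * ∑ i ∈ range t, (a : ℚ) ^ i * (b : ℚ) ^ (t - 1 - i) := by exact_mod_cast h
    linarith

theorem ok_of {a b : ℕ} {c : ℤ} (h : Adm a b c) : Pool.Agent.W2helper64.RI.Ok a b c := by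
  obtain ⟨ha, hb, hc, hab, hac, hbc, hpar⟩ := h
  refine ⟨by exact_mod_cast ha, by exact_mod_cast hb, hc, hab, hac, hbc, ?_⟩
  rintro ⟨h1, h2, h3⟩
  exact hpar ⟨by exact_mod_cast h1, by exact_mod_cast h2, h3⟩

theorem good_of {a b : ℕ} {c : ℤ} (ha : 1 ≤ a) {C k : ℕ} {h : Fin k → ℤ}
    (hg : Pool.Agent.W2helper64.RI.GoodD a b c C (Pool.Agent.W2helper64.RI.times h)) : Good a b c C h := by
  classical
  unfold Pool.Agent.W2helper64.RI.GoodD at hg
  unfold Good
  refine hg.mono fun x hx J => (hx J).trans (le_of_eq ?_)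
  unfold Pool.Agent.W2helper64.RI.prq
  rw [← Set.ncard_coe_finset]
  congr 2
  ext m
  rw [mem_coe, mem_filter, mem_Icc, Set.mem_ofPred_eq, and_assoc]
  have h1 : times h = Pool.Agent.W2helper64.RI.times h := rfl
  unfold Pattern
  simp only [prime_iff ha, h1]

open Classical in
/-- the Bohr set of the integers `|t| ≤ H` with `|exp (2πiθt) - 1| ≤ r` for all `θ ∈ Θ` -/
noncomputable def bohrSet (Θ : Finset ℝ) (r : ℝ) (H : ℕ) : Finset ℤ :=
  (Icc (-(H : ℤ)) H).filter (fun t => ∀ θ ∈ Θ,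
    ‖Complex.exp (2 * Real.pi * Complex.I * θ * t) - 1‖ ≤ r)

/-- the set of the vectors with `k` coordinates in `B` -/
def vectors (k : ℕ) (B : Finset ℤ) : Finset (Fin k → ℤ) := Fintype.piFinset (fun _ => B)

/-- **Bohr sets of iterated equations.** -/
theorem result (k s : ℕ) (ε : ℝ) (hε : 0 < ε) : ∃ (d C M n₁ : ℕ) (ρ δ : ℝ), 1 ≤ M ∧ 0 < ρ ∧ 0 < δ ∧
    ∀ (a b : ℕ) (c : ℤ), Adm a b c → ∀ N : ℕ, 1 ≤ N → M ∣ N → ∀ H : ℕ, n₁ ≤ H →
      ∃ (Θ : Finset ℝ) (r : ℝ), Θ.card ≤ d ∧ ρ ≤ r ∧ r ≤ 1 ∧ δ * H ≤ (bohrSet Θ r H).card ∧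
        ∃ 𝒢 ⊆ vectors k (bohrSet Θ r H),
          ((vectors k (bohrSet Θ r H) \ 𝒢).card : ℝ) ≤ ε * ((bohrSet Θ r H).card : ℝ) ^ k ∧
          ∀ y ∈ 𝒢, ∀ T : Matrix (Fin k) (Fin k) ℤ, (∀ i j, |T i j| ≤ s) → T.det ≠ 0 →
            Good a b c C (fun i => N * (T.mulVec y) i) := by
  obtain ⟨d, C, M, n₁, ρ, δ, hM, hρ, hδ, h⟩ := Pool.Agent.W2helper64.RI.bohrR k s ε hε
  refine ⟨d, C, M, n₁, ρ, δ, hM, hρ, hδ, fun a b c hadm N hN hMN H hH => ?_⟩
  obtain ⟨Θ, r, g1, g2, g3, g4, 𝒢, g5, g6, g7⟩ := h a b c (ok_of hadm) N hN hMN H hH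
  refine ⟨Θ, r, g1, g2, g3, g4, 𝒢, g5, ?_, fun y hy T hT hdet => good_of hadm.1 (g7 y hy T hT hdet)⟩
  refine le_trans (le_of_eq ?_) g6
  congr 2

end Pool.Agent.Results.MP_bf63dc_nt.BohrSetsOfIterates
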