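import Mathlib
import Pool.Agent.W2helper64.RD.Sc

set_option autoImplicit false

/-! MP_92ef0c_nt: hereditary sets of differences of prime tuples in all the reduced residue classes, along a
common sequence of scales. -/

namespace Pool.Agent.Results.MP_92ef0c_nt.HereditaryDifferences

open Finset

open Classical in
/-- the number of the `n ≤ x` with `n ≡ a` modulo `q` such that, for every `t ∈ T`, `n + (t - t₀)` is prime if and
only if `t ∈ J` -/
noncomputable def cnt (q : ℕ) (a : ℤ) (T J : Finset ℕ) (t₀ x : ℕ) : ℕ :=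
  ((Icc 1 x).filter (fun n : ℕ => (n : ℤ) ≡ a [ZMOD q] ∧ ∀ t ∈ T, ((n + (t - t₀)).Prime ↔ t ∈ J))).card

/-- There are `C 0, C 1, …` such that every infinite `V ⊆ ℕ` and every infinite set `S` of scales contain infinite
sets `B ⊆ V` and `X ⊆ S` with: for all `k` and `q ≥ 1` there is `K` such that for every `T ⊆ B` with `k + 1`
elements, all `≥ K`, and all sufficiently large `x ∈ X`, every class `a` coprime to `q` and every `J ⊆ T`, at least
`x / (log x) ^ C k` of the `n ≤ x` in the class are such that `n + (t - min T)`, `t ∈ T`, is prime exactly for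
`t ∈ J`. -/
theorem result : ∃ C : ℕ → ℕ, ∀ V S : Set ℕ, V.Infinite → S.Infinite → ∃ B ⊆ V, ∃ X ⊆ S,
    B.Infinite ∧ X.Infinite ∧ ∀ k q : ℕ, 1 ≤ q → ∃ K : ℕ, ∀ T : Finset ℕ, (T : Set ℕ) ⊆ B →
      T.card = k + 1 → (∀ t ∈ T, K ≤ t) → ∃ x₀ : ℕ, ∀ x ∈ X, x₀ ≤ x → ∀ a : ℤ, IsCoprime a (q : ℤ) →
        ∀ t₀ ∈ T, (∀ t ∈ T, t₀ ≤ t) → ∀ J ⊆ T,
          (x : ℝ) / Real.log x ^ C k ≤ (cnt q a T J t₀ x : ℝ) :=
  Pool.Agent.W2helper64.RD.mainU

end Pool.Agent.Results.MP_92ef0c_nt.HereditaryDifferences
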